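import Pool.Agent.helper62.HH.SpecD

/-!
# Row hh:GCW (MP_07c750_an): the admissible cells have dimension at most `1/2 + η`
-/

open scoped MatrixGroups ContDiff Topology UpperHalfPlane ComplexConjugate
open UpperHalfPlane MeasureTheory Filter Set

set_option autoImplicit false

namespace Pool.Agent.HH

open Pool.Agent.RS
open Pool.Agent.MS (bq)
open Pool.Agent.HV (FW)

theorem GCW_card (S : Finset ℤ) (D : ℝ) (hD : 0 ≤ D) (h : ∀ i ∈ S, ∀ j ∈ S, |(i : ℝ) - j| ≤ D) : (S.card : ℝ) ≤ D + 1 := by
  rcases S.eq_empty_or_nonempty with he | hne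
  · rw [he, Finset.card_empty, Nat.cast_zero]
    linarith
  · have h1 : S ⊆ Finset.Icc (S.min' hne) (S.max' hne) := fun i hi =>
      Finset.mem_Icc.2 ⟨S.min'_le i hi, S.le_max' i hi⟩
    have h2 := Finset.card_le_card h1
    rw [Int.card_Icc] at h2
    have h3 := h _ (S.max'_mem hne) _ (S.min'_mem hne)
    have h4 : S.min' hne ≤ S.max' hne := S.min'_le_max' hne
    have h5 : ((S.card : ℕ) : ℤ) ≤ S.max' hne + 1 - S.min' hne := by
      have : ((S.max' hne + 1 - S.min' hne).toNat : ℤ) = S.max' hne + 1 - S.min' hne := Int.toNat_of_nonneg (by omega)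
      rw [← this]
      exact_mod_cast h2
    have h6 : ((S.card : ℕ) : ℝ) ≤ (S.max' hne : ℝ) + 1 - (S.min' hne : ℝ) := by exact_mod_cast h5
    have h7 := le_abs_self ((S.max' hne : ℝ) - (S.min' hne : ℝ))
    linarith

theorem GCW_grp (h2 : RS.GLC_stmt) (y : SL(2, ℝ)) (w w0 τ x t : ℝ) :
    y * lM w * aM τ * nM x * aM t =
      y * lM w0 * aM t * lM (Real.exp t * (w - w0)) * aM τ * nM (Real.exp (-t) * x) := by
  obtain ⟨_, _, _, _, _, _, _, _, _, _, hA, _, hL, _, _, _, _, hNA, hLA, _⟩ := h2
  have e1 : lM w = lM w0 * lM (w - w0) := by rw [← hL]; congr 1; ring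
  have e2 : aM τ * aM t = aM t * aM τ := by rw [← hA, ← hA, add_comm]
  calc y * lM w * aM τ * nM x * aM t = y * lM w * aM τ * (nM x * aM t) := by group
    _ = y * lM w * aM τ * (aM t * nM (Real.exp (-t) * x)) := by rw [hNA]
    _ = y * lM w * (aM τ * aM t) * nM (Real.exp (-t) * x) := by group
    _ = y * (lM w0 * lM (w - w0)) * (aM t * aM τ) * nM (Real.exp (-t) * x) := by rw [e2, e1]
    _ = y * lM w0 * (lM (w - w0) * aM t) * aM τ * nM (Real.exp (-t) * x) := by group
    _ = y * lM w0 * (aM t * lM (Real.exp t * (w - w0))) * aM τ * nM (Real.exp (-t) * x) := by rw [hLA]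
    _ = _ := by group

open Classical in
theorem GCW_proof (h1 : CTG_stmt) (h2 : RS.GLC_stmt) : GCW_stmt := by
  intro Γ hΓ C2 hC2
  obtain ⟨C1, hC1, hct⟩ := h1 Γ hΓ
  refine ⟨(C1 + 1) * (2 * C2 + 4), by nlinarith, ?_⟩
  intro b η G m L Af y W hb hb1 hL1 hL2 hAf hW i hi k0
  have hGm : 0 < Real.exp ((G : ℝ) * m) := Real.exp_pos _
  have hL : (0 : ℝ) < L := lt_of_lt_of_le hGm hL1
  have hgi : (G : ℝ) * m - i * m = ((G : ℝ) - i) * m := by ring
  -- the bound `L e^(-Gm) ≤ C2`
  have hLG : (L : ℝ) * Real.exp (-((G : ℝ) * m)) ≤ C2 := by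
    have := mul_le_mul_of_nonneg_right hL2 (Real.exp_pos (-((G : ℝ) * m))).le
    rw [mul_assoc, ← Real.exp_add, add_neg_cancel, Real.exp_zero, mul_one] at this
    exact this
  set W' := W.filter fun k : ℤ => |(k : ℝ) - k0| ≤ L * Real.exp (-(i * m)) with hW'
  rcases Nat.lt_or_ge i G with hiG | hiG
  swap
  · have hiG' : i = G := le_antisymm hi hiG
    have h3 : ∀ k ∈ W', |(k : ℝ) - k0| ≤ C2 := by
      intro k hk
      have := (Finset.mem_filter.1 hk).2
      rw [hiG'] at this
      exact this.trans hLG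
    have h4 := GCW_card W' (2 * C2) (by linarith) (by
      intro j hj j' hj'
      have a1 := abs_le.1 (h3 j hj)
      have a2 := abs_le.1 (h3 j' hj')
      rw [abs_le]
      constructor <;> linarith [a1.1, a1.2, a2.1, a2.2])
    have h5 : Real.exp ((1 / 2 + η) * (((G : ℝ) - i) * m)) = 1 := by
      rw [hiG']; simp
    rw [h5, mul_one]
    nlinarith
  · have him : (0 : ℝ) ≤ ((G : ℝ) - i) * m := by
      have : (i : ℝ) ≤ G := by exact_mod_cast hi
      exact mul_nonneg (by linarith) (Nat.cast_nonneg m)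
    choose! w τ x hw1 hw2 hw3 hτ hx hFG using hW
    set z : ℤ → ℝ := fun k => Real.exp ((i : ℝ) * m) * (w k - k0 / L) with hz
    set f : ℤ → ℤ := fun k => ⌊z k * Real.exp (((G : ℝ) - i) * m)⌋ with hf
    have heim : Real.exp ((i : ℝ) * m) * Real.exp (-((i : ℝ) * m)) = 1 := by
      rw [← Real.exp_add, add_neg_cancel, Real.exp_zero]
    have hinv : 1 / (L : ℝ) ≤ Real.exp (-((i : ℝ) * m)) := by
      have e1 : Real.exp ((i : ℝ) * m) ≤ L := by
        refine le_trans (Real.exp_le_exp.2 ?_) hL1
        linarith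
      rw [Real.exp_neg, ← one_div]
      exact one_div_le_one_div_of_le (Real.exp_pos _) e1
    have hzb : ∀ k ∈ W', |z k| ≤ 4 := by
      intro k hk
      obtain ⟨hkW, hk0⟩ := Finset.mem_filter.1 hk
      have a1 := hw1 k hkW
      have a2 := hw2 k hkW
      have a3 : |w k - k0 / L| ≤ 2 * Real.exp (-((i : ℝ) * m)) := by
        have b1 : |w k - k / L| ≤ 1 / L := by
          rw [abs_le]
          rw [add_div] at a2
          constructor
          · have : (0 : ℝ) ≤ 1 / L := by positivity
            linarith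
          · linarith
        have b2 : |(k : ℝ) / L - k0 / L| ≤ Real.exp (-((i : ℝ) * m)) := by
          rw [← sub_div, abs_div, abs_of_pos hL, div_le_iff₀ hL, mul_comm]
          exact hk0
        have b3 : w k - k0 / L = (w k - k / L) + ((k : ℝ) / L - k0 / L) := by ring
        rw [b3]
        refine (abs_add_le _ _).trans ?_
        linarith
      have a4 : |z k| = Real.exp ((i : ℝ) * m) * |w k - k0 / L| := by
        rw [hz]; simp only []
        rw [abs_mul, abs_of_pos (Real.exp_pos _)]
      rw [a4]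
      have a5 := mul_le_mul_of_nonneg_left a3 (Real.exp_pos ((i : ℝ) * m)).le
      nlinarith
    have hT := hct b (((G : ℝ) - i) * m) (Af i) (y * lM (k0 / L) * aM ((i : ℝ) * m)) (W'.image f) hb hb1 him (by
      intro t ht
      obtain ⟨k, hk, rfl⟩ := Finset.mem_image.1 ht
      have hkW := (Finset.mem_filter.1 hk).1
      refine ⟨z k, τ k, Real.exp (-((i : ℝ) * m)) * x k, hzb k hk, hτ k hkW, ?_, Int.floor_le _, Int.lt_floor_add_one _, ?_⟩
      · rw [abs_mul, abs_of_pos (Real.exp_pos _)]
        have e1 : Real.exp (-((i : ℝ) * m)) ≤ 1 := Real.exp_le_one_iff.2 (by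
          have : (0 : ℝ) ≤ (i : ℝ) * m := by positivity
          linarith)
        have e2 := hx k hkW
        calc Real.exp (-((i : ℝ) * m)) * |x k| ≤ 1 * |x k| := mul_le_mul_of_nonneg_right e1 (abs_nonneg _)
          _ ≤ 1 / 10 := by rw [one_mul]; exact e2
      · have e3 := hFG k hkW i hiG
        rw [GCW_grp h2 y (w k) (k0 / L) (τ k) (x k) ((i : ℝ) * m)] at e3
        exact e3)
    have hfib : ∀ t ∈ W'.image f, ((W'.filter fun k => f k = t).card : ℝ) ≤ C2 + 2 := by
      intro t _
      have := GCW_card (W'.filter fun k => f k = t) (C2 + 1) (by linarith) (by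
        intro k hk k' hk'
        obtain ⟨hk1, hk2⟩ := Finset.mem_filter.1 hk
        obtain ⟨hk1', hk2'⟩ := Finset.mem_filter.1 hk'
        have hkW := (Finset.mem_filter.1 hk1).1
        have hkW' := (Finset.mem_filter.1 hk1').1
        have zz : ∀ k, z k * Real.exp (((G : ℝ) - i) * m) = Real.exp ((G : ℝ) * m) * (w k - k0 / L) := by
          intro k
          rw [hz]; simp only []
          rw [mul_right_comm, ← Real.exp_add]
          congr 2
          ring
        have c1 := Int.floor_eq_iff.1 hk2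
        have c2 := Int.floor_eq_iff.1 hk2'
        rw [zz] at c1 c2
        have c3 : Real.exp ((G : ℝ) * m) * |w k - w k'| ≤ 1 := by
          have c0 : |Real.exp ((G : ℝ) * m) * (w k - w k')| ≤ 1 := by
            rw [abs_le]
            constructor <;> nlinarith [c1.1, c1.2, c2.1, c2.2]
          rw [abs_mul, abs_of_pos hGm] at c0
          exact c0
        have c4 : (L : ℝ) * |w k - w k'| ≤ C2 := by
          have d1 : |w k - w k'| ≤ Real.exp (-((G : ℝ) * m)) := by
            have d2 := mul_le_mul_of_nonneg_left c3 (Real.exp_pos (-((G : ℝ) * m))).le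
            rw [← mul_assoc, ← Real.exp_add, neg_add_cancel, Real.exp_zero, one_mul, mul_one] at d2
            exact d2
          exact (mul_le_mul_of_nonneg_left d1 hL.le).trans hLG
        have a1 := (div_le_iff₀ hL).1 (hw1 k hkW)
        have a2 := (le_div_iff₀ hL).1 (hw2 k hkW)
        have a1' := (div_le_iff₀ hL).1 (hw1 k' hkW')
        have a2' := (le_div_iff₀ hL).1 (hw2 k' hkW')
        have c5 : |(L : ℝ) * (w k - w k')| ≤ C2 := by rw [abs_mul, abs_of_pos hL]; exact c4
        have c6 := abs_le.1 c5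
        rw [abs_le]
        constructor <;> nlinarith [c6.1, c6.2])
      linarith
    have hcard : (W'.card : ℝ) = ∑ t ∈ W'.image f, ((W'.filter fun k => f k = t).card : ℝ) := by
      exact_mod_cast Finset.card_eq_sum_card_image f W'
    rw [hcard]
    calc ∑ t ∈ W'.image f, ((W'.filter fun k => f k = t).card : ℝ) ≤ ∑ t ∈ W'.image f, (C2 + 2) :=
          Finset.sum_le_sum hfib
      _ = ((W'.image f).card : ℝ) * (C2 + 2) := by rw [Finset.sum_const, nsmul_eq_mul]
      _ ≤ (C1 * (Af i).card) * (C2 + 2) := mul_le_mul_of_nonneg_right hT (by linarith)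
      _ ≤ (C1 * Real.exp ((1 / 2 + η) * (((G : ℝ) - i) * m))) * (C2 + 2) := by
          refine mul_le_mul_of_nonneg_right ?_ (by linarith)
          exact mul_le_mul_of_nonneg_left (hAf i hiG) hC1.le
      _ ≤ (C1 + 1) * (2 * C2 + 4) * Real.exp ((1 / 2 + η) * (((G : ℝ) - i) * m)) := by
          have e0 := Real.exp_pos ((1 / 2 + η) * (((G : ℝ) - i) * m))
          have e1 : C1 * (C2 + 2) ≤ (C1 + 1) * (2 * C2 + 4) := by nlinarith
          have e2 := mul_le_mul_of_nonneg_right e1 e0.le
          linarith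

end Pool.Agent.HH
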